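import Mathlib

set_option autoImplicit false

namespace Pool.Agent.Results.MP_9b7a67_al.NearlyGorensteinUnbounded

/-! ### Definitions (conventions of the problem file) -/

/-- a numerical semigroup different from the whole of the natural numbers -/
def IsNumSemigroup (S : AddSubmonoid ℕ) : Prop :=
  ((S : Set ℕ)ᶜ).Finite ∧ ((S : Set ℕ)ᶜ).Nonempty

/-- the semigroup as a set of integers -/
def toInt (S : AddSubmonoid ℕ) : Set ℤ := {x | ∃ n ∈ S, (n : ℤ) = x}

/-- the minimal generators -/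
def minGens (S : AddSubmonoid ℕ) : Set ℕ :=
  {g | g ∈ S ∧ g ≠ 0 ∧ ∀ a ∈ S, ∀ b ∈ S, a + b = g → a = 0 ∨ b = 0}

/-- the embedding dimension -/
noncomputable def embDim (S : AddSubmonoid ℕ) : ℕ := (minGens S).ncard

/-- the Frobenius number: the largest integer outside the semigroup -/
noncomputable def frob (S : AddSubmonoid ℕ) : ℤ := sSup (toInt S)ᶜ

/-- the pseudo-Frobenius numbers -/
def pf (S : AddSubmonoid ℕ) : Set ℤ :=
  {x | x ∉ toInt S ∧ ∀ m ∈ toInt S, m ≠ 0 → x + m ∈ toInt S}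

/-- the type -/
noncomputable def semType (S : AddSubmonoid ℕ) : ℕ := (pf S).ncard

/-- the standard canonical ideal -/
def canon (S : AddSubmonoid ℕ) : Set ℤ := {x | frob S - x ∉ toInt S}

/-- almost symmetric: `K + M ⊆ M` -/
def IsAlmostSymmetric (S : AddSubmonoid ℕ) : Prop :=
  ∀ x ∈ canon S, ∀ m ∈ toInt S, m ≠ 0 → x + m ∈ toInt S ∧ x + m ≠ 0

/-- nearly Gorenstein: `M ⊆ K + (S - K)` -/
def IsNearlyGorenstein (S : AddSubmonoid ℕ) : Prop :=
  ∀ m ∈ toInt S, m ≠ 0 → ∃ k ∈ canon S, ∃ z : ℤ, (∀ x ∈ canon S, z + x ∈ toInt S) ∧ m = k + z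

/-! ### The family: `q = t + 3`, `p = t + 2` -/

/-- the value `n c + i X + j Y + k Z`, `c = (2 q + 1) q^2`, `X = q^2`, `Y = q p`, `Z = p^2`. -/
def val (t n i j k : ℕ) : ℕ :=
  n * ((2 * t + 7) * (t + 3) ^ 2) + i * (t + 3) ^ 2 + j * ((t + 3) * (t + 2)) + k * (t + 2) ^ 2

/-- the semigroup generated by `c + {0,X} + {0,Y} + {0,Z}`. -/
def cube (t : ℕ) : Set ℕ := {v | ∃ n i j k, i ≤ n ∧ j ≤ n ∧ k ≤ n ∧ v = val t n i j k}

lemma val_k (t n i j k : ℕ) : val t n i j (k + (t + 3)) = val t n i (j + (t + 2)) k := by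
  unfold val; ring

lemma val_j (t n i j k : ℕ) : val t n i (j + (t + 3)) k = val t n (i + (t + 2)) j k := by
  unfold val; ring

lemma val_i (t n i j k : ℕ) : val t n (i + (2 * t + 7)) j k = val t (n + 1) i j k := by
  unfold val; ring

lemma val_add (t n i j k n' i' j' k' : ℕ) :
    val t n i j k + val t n' i' j' k' = val t (n + n') (i + i') (j + j') (k + k') := by
  unfold val; ring

lemma zero_mem_cube (t : ℕ) : 0 ∈ cube t := ⟨0, 0, 0, 0, le_rfl, le_rfl, le_rfl, by simp [val]⟩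

lemma add_mem_cube {t a b : ℕ} (ha : a ∈ cube t) (hb : b ∈ cube t) : a + b ∈ cube t := by
  obtain ⟨n, i, j, k, h1, h2, h3, rfl⟩ := ha
  obtain ⟨n', i', j', k', h1', h2', h3', rfl⟩ := hb
  exact ⟨n + n', i + i', j + j', k + k', by omega, by omega, by omega, val_add ..⟩

/-- membership in terms of the normal form -/
def P (t n i j k : ℕ) : Prop :=
  (i ≤ n ∧ j ≤ n ∧ k ≤ n) ∨
    ((j + (t + 3) ≤ n ∨ k + (t + 3) ≤ n) ∧ ¬ (n = t + 3 ∧ i = 2 * t + 6))

lemma mem_of_le {t n i j k : ℕ} (h1 : i ≤ n) (h2 : j ≤ n) (h3 : k ≤ n) :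
    val t n i j k ∈ cube t := ⟨n, i, j, k, h1, h2, h3, rfl⟩

lemma mem_of_le1 {t n i j k : ℕ} (h0 : t + 2 ≤ i) (h1 : i ≤ n + (t + 2)) (h2 : j + (t + 3) ≤ n)
    (h3 : k ≤ n) : val t n i j k ∈ cube t := by
  refine ⟨n, i - (t + 2), j + (t + 3), k, by omega, h2, h3, ?_⟩
  rw [val_j, Nat.sub_add_cancel h0]

lemma mem_of_le2 {t n i j k : ℕ} (h0 : t + 2 ≤ i) (h1 : i ≤ n + (t + 2)) (h2 : j + 1 ≤ n)
    (h3 : k + (t + 3) ≤ n) : val t n i j k ∈ cube t := by
  refine ⟨n, i - (t + 2), j + 1, k + (t + 3), by omega, h2, h3, ?_⟩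
  have : val t n i j k = val t n (i - (t + 2)) (j + (t + 3)) k := by
    rw [val_j, Nat.sub_add_cancel h0]
  rw [this, val_k]
  congr 1
  omega

lemma mem_of_P {t n i j k : ℕ} (hi : i < 2 * t + 7) (hj : j < t + 3) (hk : k < t + 3)
    (h : P t n i j k) : val t n i j k ∈ cube t := by
  rcases h with h | ⟨h, h'⟩
  · exact mem_of_le h.1 h.2.1 h.2.2
  · by_cases hin : i ≤ n
    · exact mem_of_le hin (by omega) (by omega)
    · rcases h with h | h
      · exact mem_of_le1 (by omega) (by omega) (by omega) (by omega)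
      · exact mem_of_le2 (by omega) (by omega) (by omega) (by omega)

/-- normal form of a cube representation satisfies `P` -/
lemma exists_P {t n i j k : ℕ} (h1 : i ≤ n) (h2 : j ≤ n)
    (h3 : k ≤ n) : ∃ n' i' j' k', i' < 2 * t + 7 ∧ j' < t + 3 ∧ k' < t + 3 ∧
      val t n i j k = val t n' i' j' k' ∧ P t n' i' j' k' := by
  have hq0 : 0 < t + 3 := by omega
  set κ := k / (t + 3) with hκ
  set k0 := k % (t + 3) with hk0
  have ek : k = k0 + κ * (t + 3) := by
    rw [hκ, hk0]; rw [mul_comm]; exact (Nat.mod_add_div k (t + 3)).symm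
  have hk0' : k0 < t + 3 := Nat.mod_lt _ hq0
  set J := j + κ * (t + 2) with hJ
  set lam := J / (t + 3) with hlam
  set j0 := J % (t + 3) with hj0
  have ej : J = j0 + lam * (t + 3) := by
    rw [hlam, hj0]; rw [mul_comm]; exact (Nat.mod_add_div J (t + 3)).symm
  have hj0' : j0 < t + 3 := Nat.mod_lt _ hq0
  set I := i + lam * (t + 2) with hI
  set mu := I / (2 * t + 7) with hmu
  set i0 := I % (2 * t + 7) with hi0
  have ei : I = i0 + mu * (2 * t + 7) := by
    rw [hmu, hi0]; rw [mul_comm (I / (2 * t + 7))]; exact (Nat.mod_add_div I (2 * t + 7)).symm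
  have hi0' : i0 < 2 * t + 7 := Nat.mod_lt _ (by omega)
  have hval : val t n i j k = val t (n + mu) i0 j0 k0 := by
    have e1 : val t n i j k = val t n i J k0 := by
      rw [ek, hJ]; unfold val; ring
    have e2 : val t n i J k0 = val t n I j0 k0 := by
      rw [ej, hI]; unfold val; ring
    have e3 : val t n I j0 k0 = val t (n + mu) i0 j0 k0 := by
      rw [ei]; unfold val; ring
    rw [e1, e2, e3]
  refine ⟨n + mu, i0, j0, k0, hi0', hj0', hk0', hval, ?_⟩
  clear_value κ k0 J lam j0 I mu i0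
  by_cases hbig : 2 * t + 5 ≤ n + mu
  · right; omega
  · have hn : n ≤ 2 * t + 4 := by omega
    have hκ1 : κ < 2 := by
      by_contra hcon
      have : 2 * (t + 3) ≤ κ * (t + 3) := Nat.mul_le_mul_right (t + 3) (by omega)
      omega
    have hlam1 : lam < 3 := by
      by_contra hcon
      have h3q : 3 * (t + 3) ≤ lam * (t + 3) := Nat.mul_le_mul_right (t + 3) (by omega)
      have hkp : κ * (t + 2) ≤ 1 * (t + 2) := Nat.mul_le_mul_right (t + 2) (by omega)
      omega
    have hmu1 : mu < 2 := by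
      by_contra hcon
      have h3q : 2 * (2 * t + 7) ≤ mu * (2 * t + 7) :=
        Nat.mul_le_mul_right (2 * t + 7) (by omega)
      have hkp : lam * (t + 2) ≤ 2 * (t + 2) := Nat.mul_le_mul_right (t + 2) (by omega)
      omega
    unfold P
    interval_cases κ <;> interval_cases lam <;> interval_cases mu <;> omega

/-- integer version of the value -/
def valZ (t : ℕ) (n i j k : ℤ) : ℤ :=
  n * ((2 * t + 7) * (t + 3) ^ 2) + i * (t + 3) ^ 2 + j * ((t + 3) * (t + 2)) + k * (t + 2) ^ 2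

lemma cast_val (t n i j k : ℕ) : ((val t n i j k : ℕ) : ℤ) = valZ t n i j k := by
  unfold val valZ; push_cast; ring

lemma exists_nf (t : ℕ) (v : ℤ) : ∃ n : ℤ, ∃ i j k : ℕ, i < 2 * t + 7 ∧ j < t + 3 ∧
    k < t + 3 ∧ v = valZ t n i j k := by
  have hq : (0 : ℤ) < t + 3 := by positivity
  obtain ⟨a, k0, hk0, hk1, ha⟩ : ∃ a k0 : ℤ, 0 ≤ k0 ∧ k0 < t + 3 ∧ v = (t + 3) * a + k0 :=
    ⟨v / (t + 3), v % (t + 3),
      Int.emod_nonneg _ hq.ne', Int.emod_lt_of_pos _ hq, (Int.mul_ediv_add_emod _ _).symm⟩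
  obtain ⟨w, hw⟩ : ∃ w : ℤ, w = a - k0 * (t + 1) := ⟨_, rfl⟩
  have hv1 : v = k0 * (t + 2) ^ 2 + (t + 3) * w := by
    rw [hw]; linear_combination ha
  obtain ⟨b, j0, hj0, hj1, hb⟩ : ∃ b j0 : ℤ, 0 ≤ j0 ∧ j0 < t + 3 ∧ -w = (t + 3) * b + j0 :=
    ⟨-w / (t + 3), -w % (t + 3),
      Int.emod_nonneg _ hq.ne', Int.emod_lt_of_pos _ hq, (Int.mul_ediv_add_emod _ _).symm⟩
  obtain ⟨u, hu⟩ : ∃ u : ℤ, u = -b - j0 := ⟨_, rfl⟩
  have hw1 : w = j0 * (t + 2) + (t + 3) * u := by
    rw [hu]; linear_combination -hb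
  have hq2 : (0 : ℤ) < 2 * t + 7 := by positivity
  obtain ⟨n, i0, hi0, hi1, hn⟩ : ∃ n i0 : ℤ, 0 ≤ i0 ∧ i0 < 2 * t + 7 ∧ u = (2 * t + 7) * n + i0 :=
    ⟨u / (2 * t + 7), u % (2 * t + 7),
      Int.emod_nonneg _ hq2.ne', Int.emod_lt_of_pos _ hq2, (Int.mul_ediv_add_emod _ _).symm⟩
  lift k0 to ℕ using hk0
  lift j0 to ℕ using hj0
  lift i0 to ℕ using hi0
  refine ⟨n, i0, j0, k0, by omega, by omega, by omega, ?_⟩
  unfold valZ
  rw [hv1, hw1, hn]
  ring

lemma eq_of_dvd {q a b : ℤ} (ha : 0 ≤ a) (ha' : a < q) (hb : 0 ≤ b) (hb' : b < q)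
    (h : q ∣ a - b) : a = b := by
  have h1 : a % q = b % q := Int.emod_eq_emod_iff_emod_sub_eq_zero.2 (Int.emod_eq_zero_of_dvd h)
  rwa [Int.emod_eq_of_lt ha ha', Int.emod_eq_of_lt hb hb'] at h1

lemma nf_unique (t : ℕ) {n n' : ℤ} {i j k i' j' k' : ℕ}
    (hi : i < 2 * t + 7) (hj : j < t + 3) (hk : k < t + 3)
    (hi' : i' < 2 * t + 7) (hj' : j' < t + 3) (hk' : k' < t + 3)
    (h : valZ t n i j k = valZ t n' i' j' k') :
    n = n' ∧ i = i' ∧ j = j' ∧ k = k' := by
  unfold valZ at h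
  have hq : (0 : ℤ) < t + 3 := by positivity
  have ek : (k : ℤ) = k' := by
    apply eq_of_dvd (q := t + 3) (by omega) (by omega) (by omega) (by omega)
    refine ⟨-((n - n') * ((2 * t + 7) * (t + 3)) + (i - i') * (t + 3) + (j - j') * (t + 2) +
      (k - k') * (t + 1)), ?_⟩
    linear_combination h
  have ek' : k = k' := by exact_mod_cast ek
  subst ek'
  have h2 : n * ((2 * (t : ℤ) + 7) * (t + 3)) + i * (t + 3) + j * (t + 2) =
      n' * ((2 * (t : ℤ) + 7) * (t + 3)) + i' * (t + 3) + j' * (t + 2) := by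
    have : ((t : ℤ) + 3) * (n * ((2 * (t : ℤ) + 7) * (t + 3)) + i * (t + 3) + j * (t + 2)) =
      ((t : ℤ) + 3) * (n' * ((2 * (t : ℤ) + 7) * (t + 3)) + i' * (t + 3) + j' * (t + 2)) := by
      linear_combination h
    exact mul_left_cancel₀ hq.ne' this
  have ej : (j : ℤ) = j' := by
    apply eq_of_dvd (q := t + 3) (by omega) (by omega) (by omega) (by omega)
    refine ⟨(n - n') * (2 * t + 7) + (i - i') + (j - j'), ?_⟩
    linear_combination -h2
  have ej' : j = j' := by exact_mod_cast ej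
  subst ej'
  have h3 : n * (2 * (t : ℤ) + 7) + i = n' * (2 * (t : ℤ) + 7) + i' := by
    have : ((t : ℤ) + 3) * (n * (2 * (t : ℤ) + 7) + i) =
      ((t : ℤ) + 3) * (n' * (2 * (t : ℤ) + 7) + i') := by
      linear_combination h2
    exact mul_left_cancel₀ hq.ne' this
  have ei : (i : ℤ) = i' := by
    apply eq_of_dvd (q := 2 * t + 7) (by omega) (by omega) (by omega) (by omega)
    exact ⟨n' - n, by linear_combination h3⟩
  have ei' : i = i' := by exact_mod_cast ei
  subst ei'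
  refine ⟨?_, rfl, rfl, rfl⟩
  have : n * (2 * (t : ℤ) + 7) = n' * (2 * (t : ℤ) + 7) := by linarith
  exact mul_right_cancel₀ (by positivity) this

/-- membership in the cube semigroup is decided by `P` on normal forms -/
lemma P_of_mem (t : ℕ) {n : ℤ} {i j k : ℕ}
    (hi : i < 2 * t + 7) (hj : j < t + 3) (hk : k < t + 3) {v : ℕ}
    (hv : (v : ℤ) = valZ t n i j k)
    (hmem : v ∈ cube t) : ∃ m : ℕ, n = m ∧ P t m i j k := by
  obtain ⟨n1, i1, j1, k1, h1, h2, h3, e⟩ := hmem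
  obtain ⟨n', i', j', k', hi', hj', hk', e', hP⟩ := exists_P (t := t) h1 h2 h3
  have := nf_unique t hi hj hk hi' hj' hk' (n := n) (n' := (n' : ℤ))
    (by rw [← hv, e, e', cast_val])
  obtain ⟨rfl, rfl, rfl, rfl⟩ := this
  exact ⟨n', rfl, hP⟩

lemma red_i {t n i j k : ℕ} (h : 2 * t + 7 ≤ i) :
    val t n i j k = val t (n + 1) (i - (2 * t + 7)) j k := by
  rw [← val_i, Nat.sub_add_cancel h]

lemma red_j {t n i j k : ℕ} (h : t + 3 ≤ j) :
    val t n i j k = val t n (i + (t + 2)) (j - (t + 3)) k := by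
  rw [← val_j, Nat.sub_add_cancel h]

lemma red_k {t n i j k : ℕ} (h : t + 3 ≤ k) :
    val t n i j k = val t n i (j + (t + 2)) (k - (t + 3)) := by
  rw [← val_k, Nat.sub_add_cancel h]

lemma mem_red_i {t n i j k : ℕ} (hk : k < t + 3) (hj : j < t + 3) (hi : i < 3 * (2 * t + 7))
    (h0 : i < 2 * t + 7 → P t n i j k)
    (h1 : 2 * t + 7 ≤ i → i < 2 * (2 * t + 7) → P t (n + 1) (i - (2 * t + 7)) j k)
    (h2 : 2 * (2 * t + 7) ≤ i → P t (n + 2) (i - 2 * (2 * t + 7)) j k) :
    val t n i j k ∈ cube t := by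
  by_cases hi1 : i < 2 * t + 7
  · exact mem_of_P hi1 hj hk (h0 hi1)
  · rw [red_i (by omega)]
    by_cases hi2 : i < 2 * (2 * t + 7)
    · exact mem_of_P (by omega) hj hk (h1 (by omega) hi2)
    · rw [red_i (by omega)]
      have := h2 (by omega)
      have e : i - (2 * t + 7) - (2 * t + 7) = i - 2 * (2 * t + 7) := by omega
      rw [e]
      exact mem_of_P (by omega) hj hk this

/-- the number of nonzero elements is at least `c` -/
lemma val_ge {t n i j k : ℕ} (h1 : i ≤ n) (h2 : j ≤ n) (h3 : k ≤ n)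
    (h : val t n i j k ≠ 0) : (2 * t + 7) * (t + 3) ^ 2 ≤ val t n i j k := by
  have hn : n ≠ 0 := by
    rintro rfl
    apply h
    have : i = 0 := by omega
    have : j = 0 := by omega
    have : k = 0 := by omega
    subst_vars
    simp [val]
  have : 1 * ((2 * t + 7) * (t + 3) ^ 2) ≤ n * ((2 * t + 7) * (t + 3) ^ 2) :=
    Nat.mul_le_mul_right _ (by omega)
  unfold val
  omega

lemma gen_mem {t : ℕ} {a b d : ℕ} (ha : a ≤ 1) (hb : b ≤ 1) (hd : d ≤ 1) :
    val t 1 a b d ∈ cube t := mem_of_le ha hb hd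

/-- every nonzero element of the cube semigroup is a generator plus an element -/
lemma split {t s : ℕ} (hs : s ∈ cube t) (h0 : s ≠ 0) : ∃ a b d, a ≤ 1 ∧ b ≤ 1 ∧ d ≤ 1 ∧
    ∃ s' ∈ cube t, s = val t 1 a b d + s' := by
  obtain ⟨n, i, j, k, h1, h2, h3, rfl⟩ := hs
  have hn : n ≠ 0 := by
    rintro rfl
    apply h0
    have : i = 0 := by omega
    have : j = 0 := by omega
    have : k = 0 := by omega
    subst_vars
    simp [val]
  refine ⟨min i 1, min j 1, min k 1, by omega, by omega, by omega,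
    val t (n - 1) (i - min i 1) (j - min j 1) (k - min k 1),
    ⟨n - 1, i - min i 1, j - min j 1, k - min k 1, by omega, by omega, by omega, rfl⟩, ?_⟩
  rw [val_add]
  congr 1 <;> omega

/-- extra element plus a generator -/
lemma addA_gen {t j κ a b d : ℕ} (hj : j < t + 3) (hκ : κ < t + 3) (h0 : j = 0 ∨ κ = 0)
    (ha : a ≤ 1) (hb : b ≤ 1) (hd : d ≤ 1) :
    val t (t + 3 + 1) (2 * t + 6 + a) (j + b) (κ + d) ∈ cube t := by
  by_cases hk1 : κ + d < t + 3
  · by_cases hj1 : j + b < t + 3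
    · apply mem_red_i (by omega) (by omega) (by omega) <;> intros <;> unfold P <;> omega
    · rw [red_j (by omega)]
      apply mem_red_i (by omega) (by omega) (by omega) <;> intros <;> unfold P <;> omega
  · rw [red_k (by omega)]
    by_cases hj1 : j + b + (t + 2) < t + 3
    · apply mem_red_i (by omega) (by omega) (by omega) <;> intros <;> unfold P <;> omega
    · rw [red_j (by omega)]
      apply mem_red_i (by omega) (by omega) (by omega) <;> intros <;> unfold P <;> omega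

/-- extra element plus extra element -/
lemma addA_A {t j κ κ' : ℕ} (hj : j < t + 3) (hκ : κ < t + 3) (hκ' : κ' < t + 3) :
    val t (t + 3 + (t + 3)) (2 * t + 6 + (2 * t + 6)) j (κ + κ') ∈ cube t := by
  by_cases hk1 : κ + κ' < t + 3
  · apply mem_red_i (by omega) (by omega) (by omega) <;> intros <;> unfold P <;> omega
  · rw [red_k (by omega)]
    by_cases hj1 : j + (t + 2) < t + 3
    · apply mem_red_i (by omega) (by omega) (by omega) <;> intros <;> unfold P <;> omega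
    · rw [red_j (by omega)]
      apply mem_red_i (by omega) (by omega) (by omega) <;> intros <;> unfold P <;> omega

/-- reflection, generators -/
lemma refl_gen {t N i j k b d : ℕ} (hi : i < 2 * t + 7) (hj : j < t + 3) (hk : k < t + 3)
    (hb : b ≤ 1) (hd : d ≤ 1) (hN : 1 ≤ N) (h : ∀ n, n + N = 2 * t + 5 → ¬ P t n i j k) :
    val t N (2 * t + 6 - i) (t + 2 - j + b) (t + 2 - k + d) ∈ cube t := by
  have h' : 2 * t + 5 < N ∨ ∃ n, n + N = 2 * t + 5 ∧ ¬ P t n i j k := by
    rcases lt_or_ge (2 * t + 5) N with hl | hl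
    · left; exact hl
    · right; exact ⟨2 * t + 5 - N, by omega, h _ (by omega)⟩
  clear h
  rcases h' with hl | ⟨n, hn, hP⟩
  · by_cases hk1 : t + 2 - k + d < t + 3
    · by_cases hj1 : t + 2 - j + b < t + 3
      · apply mem_red_i (by omega) (by omega) (by omega) <;> intros <;> unfold P <;> omega
      · rw [red_j (by omega)]
        apply mem_red_i (by omega) (by omega) (by omega) <;> intros <;> unfold P <;> omega
    · rw [red_k (by omega)]
      by_cases hj1 : t + 2 - j + b + (t + 2) < t + 3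
      · apply mem_red_i (by omega) (by omega) (by omega) <;> intros <;> unfold P <;> omega
      · rw [red_j (by omega)]
        by_cases hj2 : t + 2 - j + b + (t + 2) - (t + 3) < t + 3
        · apply mem_red_i (by omega) (by omega) (by omega) <;> intros <;> unfold P <;> omega
        · rw [red_j (by omega)]
          apply mem_red_i (by omega) (by omega) (by omega) <;> intros <;> unfold P <;> omega
  · unfold P at hP
    by_cases hk1 : t + 2 - k + d < t + 3
    · by_cases hj1 : t + 2 - j + b < t + 3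
      · apply mem_red_i (by omega) (by omega) (by omega) <;> intros <;> unfold P <;> omega
      · rw [red_j (by omega)]
        apply mem_red_i (by omega) (by omega) (by omega) <;> intros <;> unfold P <;> omega
    · rw [red_k (by omega)]
      by_cases hj1 : t + 2 - j + b + (t + 2) < t + 3
      · apply mem_red_i (by omega) (by omega) (by omega) <;> intros <;> unfold P <;> omega
      · rw [red_j (by omega)]
        by_cases hj2 : t + 2 - j + b + (t + 2) - (t + 3) < t + 3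
        · apply mem_red_i (by omega) (by omega) (by omega) <;> intros <;> unfold P <;> omega
        · rw [red_j (by omega)]
          apply mem_red_i (by omega) (by omega) (by omega) <;> intros <;> unfold P <;> omega

/-- reflection, extra elements -/
lemma refl_A {t r N i j k κ : ℕ} (hi : i < 2 * t + 7) (hj : j < t + 3) (hk : k < t + 3)
    (hr : r ≤ t + 3) (hκ : κ < r)
    (h : ∀ n, n + N = 2 * t + 4 → ¬ P t n i j k ∧ ¬ (n = t + 3 ∧ i = 2 * t + 6 ∧ j = 0 ∧ k < r)) :
    (N = 0 ∧ i = 2 * t + 6 ∧ j = t + 2 ∧ k = t + 2) ∨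
    val t (N + (t + 3)) (2 * t + 6 - i + (2 * t + 6)) (t + 2 - j) (t + 2 - k + κ) ∈ cube t := by
  have h' : 2 * t + 4 < N ∨ ∃ n, n + N = 2 * t + 4 ∧ ¬ P t n i j k ∧
      ¬ (n = t + 3 ∧ i = 2 * t + 6 ∧ j = 0 ∧ k < r) := by
    rcases lt_or_ge (2 * t + 4) N with hl | hl
    · left; exact hl
    · right; exact ⟨2 * t + 4 - N, by omega, h _ (by omega)⟩
  clear h
  by_cases hF : N = 0 ∧ i = 2 * t + 6 ∧ j = t + 2 ∧ k = t + 2
  · exact Or.inl hF
  right
  rcases h' with hl | ⟨n, hn, hP, hA⟩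
  · by_cases hk1 : t + 2 - k + κ < t + 3
    · apply mem_red_i (by omega) (by omega) (by omega) <;> intros <;> unfold P <;> omega
    · rw [red_k (by omega)]
      by_cases hj1 : t + 2 - j + (t + 2) < t + 3
      · apply mem_red_i (by omega) (by omega) (by omega) <;> intros <;> unfold P <;> omega
      · rw [red_j (by omega)]
        apply mem_red_i (by omega) (by omega) (by omega) <;> intros <;> unfold P <;> omega
  · unfold P at hP
    by_cases hk1 : t + 2 - k + κ < t + 3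
    · apply mem_red_i (by omega) (by omega) (by omega) <;> intros <;> unfold P <;> omega
    · rw [red_k (by omega)]
      by_cases hj1 : t + 2 - j + (t + 2) < t + 3
      · apply mem_red_i (by omega) (by omega) (by omega) <;> intros <;> unfold P <;> omega
      · rw [red_j (by omega)]
        apply mem_red_i (by omega) (by omega) (by omega) <;> intros <;> unfold P <;> omega

/-- extra element plus an element of the cube semigroup -/
lemma addA_cube {t κ s : ℕ} (hκ : κ < t + 3) (hs : s ∈ cube t) (h0 : s ≠ 0) :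
    val t (t + 3) (2 * t + 6) 0 κ + s ∈ cube t := by
  obtain ⟨a, b, d, ha, hb, hd, s', hs', rfl⟩ := split hs h0
  rw [← add_assoc, val_add]
  exact add_mem_cube (addA_gen (by omega) hκ (Or.inl rfl) ha hb hd) hs'

/-- the numerical semigroups: the cube semigroup with `r` pseudo-Frobenius numbers adjoined -/
def fam (t r : ℕ) (hr : r ≤ t + 3) : AddSubmonoid ℕ where
  carrier := {v | v ∈ cube t ∨ ∃ κ < r, v = val t (t + 3) (2 * t + 6) 0 κ}
  zero_mem' := Or.inl (zero_mem_cube t)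
  add_mem' := by
    rintro x y (hx | ⟨κ, hκ, rfl⟩) (hy | ⟨κ', hκ', rfl⟩)
    · exact Or.inl (add_mem_cube hx hy)
    · by_cases h0 : x = 0
      · subst h0; right; exact ⟨κ', hκ', by simp⟩
      · left; rw [add_comm]; exact addA_cube (by omega) hx h0
    · by_cases h0 : y = 0
      · subst h0; right; exact ⟨κ, hκ, by simp⟩
      · left; exact addA_cube (by omega) hy h0
    · left
      rw [val_add]
      exact addA_A (by omega) (by omega) (by omega)

lemma mem_fam {t r : ℕ} {hr : r ≤ t + 3} {v : ℕ} :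
    v ∈ fam t r hr ↔ v ∈ cube t ∨ ∃ κ < r, v = val t (t + 3) (2 * t + 6) 0 κ := Iff.rfl

lemma cube_toInt {t r : ℕ} {hr : r ≤ t + 3} {v : ℕ} (h : v ∈ cube t) :
    (v : ℤ) ∈ toInt (fam t r hr) := ⟨v, Or.inl h, rfl⟩

/-- membership on normal forms -/
lemma fam_P {t r : ℕ} {hr : r ≤ t + 3} {v : ℤ} (hv : v ∈ toInt (fam t r hr)) {n : ℤ} {i j k : ℕ}
    (hi : i < 2 * t + 7) (hj : j < t + 3) (hk : k < t + 3) (e : v = valZ t n i j k) :
    ∃ m : ℕ, n = m ∧ (P t m i j k ∨ (m = t + 3 ∧ i = 2 * t + 6 ∧ j = 0 ∧ k < r)) := by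
  obtain ⟨w, hw | ⟨κ, hκ, rfl⟩, rfl⟩ := hv
  · obtain ⟨m, hm, hP⟩ := P_of_mem t hi hj hk e hw
    exact ⟨m, hm, Or.inl hP⟩
  · rw [cast_val] at e
    have := nf_unique t (n := ((t + 3 : ℕ) : ℤ)) (n' := n) (i := 2 * t + 6) (j := 0) (k := κ)
      (by omega) (by omega) (by omega) hi hj hk e
    obtain ⟨h1, h2, h3, h4⟩ := this
    exact ⟨t + 3, h1.symm, Or.inr ⟨rfl, h2.symm, h3.symm, by omega⟩⟩

lemma mem_of_nf {t r : ℕ} {hr : r ≤ t + 3} {v : ℤ} {n : ℤ} {i j k : ℕ}
    (hi : i < 2 * t + 7) (hj : j < t + 3) (hk : k < t + 3) (e : v = valZ t n i j k)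
    (hn : 2 * (t : ℤ) + 5 ≤ n) : v ∈ toInt (fam t r hr) := by
  lift n to ℕ using (by omega)
  rw [← cast_val] at e
  rw [e]
  apply cube_toInt
  apply mem_of_P hi hj hk
  unfold P
  omega

lemma not_mem_nf {t r : ℕ} {hr : r ≤ t + 3} {y : ℤ} (hy : y ∉ toInt (fam t r hr)) :
    ∃ (n : ℤ) (i j k : ℕ), i < 2 * t + 7 ∧ j < t + 3 ∧ k < t + 3 ∧ y = valZ t n i j k ∧
      n ≤ 2 * t + 4 ∧ ∀ m : ℕ, (m : ℤ) = n →
        ¬ P t m i j k ∧ ¬ (m = t + 3 ∧ i = 2 * t + 6 ∧ j = 0 ∧ k < r) := by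
  obtain ⟨n, i, j, k, hi, hj, hk, e⟩ := exists_nf t y
  refine ⟨n, i, j, k, hi, hj, hk, e, ?_, ?_⟩
  · by_contra hcon
    exact hy (mem_of_nf hi hj hk e (by omega))
  · intro m hm
    subst hm
    rw [← cast_val] at e
    constructor
    · intro hP
      apply hy
      rw [e]
      exact cube_toInt (mem_of_P hi hj hk hP)
    · rintro ⟨rfl, rfl, rfl, hkr⟩
      apply hy
      rw [e]
      exact ⟨_, Or.inr ⟨k, hkr, rfl⟩, rfl⟩

/-- the Frobenius number of the family -/
def Fr (t : ℕ) : ℕ := val t (2 * t + 4) (2 * t + 6) (t + 2) (t + 2)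

lemma Fr_greatest (t r : ℕ) (hr : r ≤ t + 3) : IsGreatest (toInt (fam t r hr))ᶜ (Fr t : ℤ) := by
  constructor
  · intro h
    obtain ⟨m, hm, hP⟩ := fam_P h (n := ((2 * t + 4 : ℕ) : ℤ)) (i := 2 * t + 6) (j := t + 2)
      (k := t + 2) (by omega) (by omega) (by omega) (by rw [Fr, cast_val])
    have : m = 2 * t + 4 := by exact_mod_cast hm.symm
    subst this
    unfold P at hP
    omega
  · intro y hy
    obtain ⟨n, i, j, k, hi, hj, hk, e, hn, -⟩ := not_mem_nf hy
    rw [e, Fr, cast_val]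
    unfold valZ
    have h1 : n ≤ ((2 * t + 4 : ℕ) : ℤ) := by push_cast; omega
    have h2 : (i : ℤ) ≤ ((2 * t + 6 : ℕ) : ℤ) := by push_cast; omega
    have h3 : (j : ℤ) ≤ ((t + 2 : ℕ) : ℤ) := by push_cast; omega
    have h4 : (k : ℤ) ≤ ((t + 2 : ℕ) : ℤ) := by push_cast; omega
    gcongr

lemma frob_fam (t r : ℕ) (hr : r ≤ t + 3) : frob (fam t r hr) = Fr t :=
  (Fr_greatest t r hr).csSup_eq

lemma fam_num (t r : ℕ) (hr : r ≤ t + 3) : IsNumSemigroup (fam t r hr) := by
  have hG := Fr_greatest t r hr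
  constructor
  · apply (Set.finite_Iic (Fr t)).subset
    intro y hy
    have : (y : ℤ) ∈ (toInt (fam t r hr))ᶜ := by
      rintro ⟨n, hn, hn'⟩
      have : n = y := by exact_mod_cast hn'
      subst this
      exact hy hn
    have := hG.2 this
    simpa using this
  · exact ⟨Fr t, fun h => hG.1 ⟨Fr t, h, rfl⟩⟩

/-- `F + (c + b Y + d Z) - y` lies in the semigroup for every `y` outside it -/
lemma refl_gen_int {t r : ℕ} {hr : r ≤ t + 3} {y : ℤ} (hy : y ∉ toInt (fam t r hr)) {b d : ℕ}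
    (hb : b ≤ 1) (hd : d ≤ 1) : (Fr t : ℤ) + (val t 1 0 b d : ℕ) - y ∈ toInt (fam t r hr) := by
  obtain ⟨n, i, j, k, hi, hj, hk, e, hn, hP⟩ := not_mem_nf hy
  obtain ⟨N, hN⟩ : ∃ N : ℕ, (N : ℤ) = 2 * t + 5 - n := ⟨(2 * t + 5 - n).toNat, by omega⟩
  have hmem := refl_gen (t := t) (N := N) hi hj hk hb hd (by omega)
    (fun m hm => (hP m (by omega)).1)
  have : (Fr t : ℤ) + (val t 1 0 b d : ℕ) - y =
      ((val t N (2 * t + 6 - i) (t + 2 - j + b) (t + 2 - k + d) : ℕ) : ℤ) := by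
    rw [e, Fr, cast_val, cast_val, cast_val]
    have e1 : ((2 * t + 6 - i : ℕ) : ℤ) = 2 * t + 6 - i := by omega
    have e2 : ((t + 2 - j + b : ℕ) : ℤ) = t + 2 - j + b := by omega
    have e3 : ((t + 2 - k + d : ℕ) : ℤ) = t + 2 - k + d := by omega
    rw [e1, e2, e3, hN]
    unfold valZ
    push_cast
    ring
  rw [this]
  exact cube_toInt hmem

/-- `F + a - y` lies in the semigroup for every `y` outside it and every extra element `a` -/
lemma refl_A_int {t r : ℕ} {hr : r ≤ t + 3} {y : ℤ} (hy : y ∉ toInt (fam t r hr)) {κ : ℕ}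
    (hκ : κ < r) :
    (Fr t : ℤ) + (val t (t + 3) (2 * t + 6) 0 κ : ℕ) - y ∈ toInt (fam t r hr) := by
  obtain ⟨n, i, j, k, hi, hj, hk, e, hn, hP⟩ := not_mem_nf hy
  obtain ⟨N, hN⟩ : ∃ N : ℕ, (N : ℤ) = 2 * t + 4 - n := ⟨(2 * t + 4 - n).toNat, by omega⟩
  have hmem := refl_A (t := t) (N := N) hi hj hk hr hκ
    (fun m hm => hP m (by omega))
  rcases hmem with ⟨h1, h2, h3, h4⟩ | hmem
  · have : (Fr t : ℤ) + (val t (t + 3) (2 * t + 6) 0 κ : ℕ) - y =
      (val t (t + 3) (2 * t + 6) 0 κ : ℕ) := by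
      have hn' : n = ((2 * t + 4 : ℕ) : ℤ) := by push_cast; omega
      rw [e, Fr, h2, h3, h4, hn', ← cast_val]
      ring
    rw [this]
    exact ⟨_, Or.inr ⟨κ, hκ, rfl⟩, rfl⟩
  · have : (Fr t : ℤ) + (val t (t + 3) (2 * t + 6) 0 κ : ℕ) - y =
        ((val t (N + (t + 3)) (2 * t + 6 - i + (2 * t + 6)) (t + 2 - j) (t + 2 - k + κ) : ℕ) :
          ℤ) := by
      rw [e, Fr, cast_val, cast_val, cast_val]
      have e0 : ((N + (t + 3) : ℕ) : ℤ) = 2 * t + 4 - n + (t + 3) := by push_cast; omega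
      have e1 : ((2 * t + 6 - i + (2 * t + 6) : ℕ) : ℤ) = 2 * t + 6 - i + (2 * t + 6) := by omega
      have e2 : ((t + 2 - j : ℕ) : ℤ) = t + 2 - j := by omega
      have e3 : ((t + 2 - k + κ : ℕ) : ℤ) = t + 2 - k + κ := by omega
      rw [e0, e1, e2, e3]
      unfold valZ
      push_cast
      ring
    rw [this]
    exact cube_toInt hmem

lemma not_mem_of {t r : ℕ} {hr : r ≤ t + 3} {n i j k : ℕ}
    (hi : i < 2 * t + 7) (hj : j < t + 3) (hk : k < t + 3)
    (h : ¬ (P t n i j k ∨ (n = t + 3 ∧ i = 2 * t + 6 ∧ j = 0 ∧ k < r))) :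
    ((val t n i j k : ℕ) : ℤ) ∉ toInt (fam t r hr) := by
  intro hmem
  obtain ⟨m, hm, hP⟩ := fam_P hmem (n := (n : ℤ)) hi hj hk (by rw [cast_val])
  have : n = m := by exact_mod_cast hm
  subst this
  exact h hP

/-- `F - aX` is not in the semigroup for `a ≤ 1` -/
lemma aX_canon {t r : ℕ} {hr : r ≤ t + 3} {a : ℕ} (ha : a ≤ 1) :
    ((val t 0 a 0 0 : ℕ) : ℤ) ∈ canon (fam t r hr) := by
  show frob (fam t r hr) - _ ∉ _
  rw [frob_fam]
  have : (Fr t : ℤ) - ((val t 0 a 0 0 : ℕ) : ℤ) =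
      ((val t (2 * t + 4) (2 * t + 6 - a) (t + 2) (t + 2) : ℕ) : ℤ) := by
    have : Fr t = val t 0 a 0 0 + val t (2 * t + 4) (2 * t + 6 - a) (t + 2) (t + 2) := by
      rw [Fr, val_add]
      congr 1 <;> omega
    rw [this]
    push_cast
    ring
  rw [this]
  apply not_mem_of (by omega) (by omega) (by omega)
  unfold P
  omega

lemma fam_NG (t r : ℕ) (hr : r ≤ t + 3) : IsNearlyGorenstein (fam t r hr) := by
  rintro m ⟨w, hw, rfl⟩ h0
  have hw0 : w ≠ 0 := by rintro rfl; exact h0 rfl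
  have hK : ∀ x ∈ canon (fam t r hr), (Fr t : ℤ) - x ∉ toInt (fam t r hr) := by
    intro x hx
    have : frob (fam t r hr) - x ∉ toInt (fam t r hr) := hx
    rwa [frob_fam] at this
  rcases hw with hw | ⟨κ, hκ, rfl⟩
  · obtain ⟨a, b, d, ha, hb, hd, s', hs', rfl⟩ := split hw hw0
    refine ⟨_, aX_canon ha, ((val t 1 0 b d : ℕ) : ℤ) + s', ?_, ?_⟩
    · intro x hx
      have h1 := refl_gen_int (hK x hx) hb hd
      obtain ⟨u, hu, hu'⟩ := h1
      refine ⟨u + s', (fam t r hr).add_mem hu (Or.inl hs'), ?_⟩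
      push_cast
      rw [hu']
      ring
    · have : val t 1 a b d = val t 0 a 0 0 + val t 1 0 b d := by
        rw [val_add]; congr 1 <;> omega
      rw [this]
      push_cast
      ring
  · refine ⟨_, aX_canon (a := 0) (by omega), ((val t (t + 3) (2 * t + 6) 0 κ : ℕ) : ℤ), ?_, ?_⟩
    · intro x hx
      have h1 := refl_A_int (hK x hx) hκ
      have : (Fr t : ℤ) + ((val t (t + 3) (2 * t + 6) 0 κ : ℕ) : ℤ) - ((Fr t : ℤ) - x) =
        ((val t (t + 3) (2 * t + 6) 0 κ : ℕ) : ℤ) + x := by ring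
      rwa [this] at h1
    · simp [val]

lemma fam_not_AS (t r : ℕ) (hr : r ≤ t + 3) : ¬ IsAlmostSymmetric (fam t r hr) := by
  intro h
  have h1 := (h _ (aX_canon (a := 1) le_rfl) _ (cube_toInt (gen_mem (a := 1) (b := 0) (d := 0)
    le_rfl (by omega) (by omega))) (by
      have : val t 1 1 0 0 ≠ 0 := by unfold val; positivity
      exact_mod_cast this)).1
  have h2 : ((val t 0 1 0 0 : ℕ) : ℤ) + ((val t 1 1 0 0 : ℕ) : ℤ) = ((val t 1 2 0 0 : ℕ) : ℤ) := by
    have : val t 0 1 0 0 + val t 1 1 0 0 = val t 1 2 0 0 := by rw [val_add]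
    exact_mod_cast this
  rw [h2] at h1
  revert h1
  apply not_mem_of (by omega) (by omega) (by omega)
  unfold P
  omega

lemma pf_mem {t r : ℕ} {hr : r ≤ t + 3} {j : ℕ} (hj : j < t + 2) :
    ((val t (t + 3) (2 * t + 6) (j + 1) 0 : ℕ) : ℤ) ∈ pf (fam t r hr) := by
  constructor
  · apply not_mem_of (by omega) (by omega) (by omega)
    unfold P
    omega
  · rintro m ⟨w, hw, rfl⟩ h0
    have hw0 : w ≠ 0 := by rintro rfl; exact h0 rfl
    rcases hw with hw | ⟨κ, hκ, rfl⟩
    · obtain ⟨a, b, d, ha, hb, hd, s', hs', rfl⟩ := split hw hw0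
      have := add_mem_cube (addA_gen (t := t) (j := j + 1) (κ := 0) (by omega) (by omega)
        (Or.inr rfl) ha hb hd) hs'
      have e : (val t (t + 3) (2 * t + 6) (j + 1) 0 : ℤ) + ((val t 1 a b d + s' : ℕ) : ℤ) =
          ((val t (t + 3 + 1) (2 * t + 6 + a) (j + 1 + b) (0 + d) + s' : ℕ) : ℤ) := by
        rw [← val_add]
        push_cast
        ring
      rw [e]
      exact cube_toInt this
    · have := addA_A (t := t) (j := j + 1) (κ := 0) (κ' := κ) (by omega) (by omega) (by omega)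
      have e : (val t (t + 3) (2 * t + 6) (j + 1) 0 : ℤ) +
          ((val t (t + 3) (2 * t + 6) 0 κ : ℕ) : ℤ) =
          ((val t (t + 3 + (t + 3)) (2 * t + 6 + (2 * t + 6)) (j + 1) (0 + κ) : ℕ) : ℤ) := by
        rw [← Nat.cast_add, val_add, add_zero]
      rw [e]
      exact cube_toInt this

lemma pf_finite (t r : ℕ) (hr : r ≤ t + 3) : (pf (fam t r hr)).Finite := by
  apply (Set.finite_Icc (-((val t 1 0 0 0 : ℕ) : ℤ)) (Fr t)).subset
  rintro x ⟨hx, hx'⟩
  constructor
  · have := hx' _ (cube_toInt (gen_mem (a := 0) (b := 0) (d := 0) (by omega) (by omega)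
      (by omega))) (by
        have : val t 1 0 0 0 ≠ 0 := by unfold val; positivity
        exact_mod_cast this)
    obtain ⟨n, hn, e⟩ := this
    omega
  · exact (Fr_greatest t r hr).2 hx

lemma type_ge (t r : ℕ) (hr : r ≤ t + 3) : t + 2 ≤ semType (fam t r hr) := by
  classical
  set f : ℕ → ℤ := fun j => ((val t (t + 3) (2 * t + 6) (j + 1) 0 : ℕ) : ℤ) with hf
  have hinj : Function.Injective f := by
    intro a b hab
    simp only [hf, val] at hab
    have h0 : (a + 1) * ((t + 3) * (t + 2)) = (b + 1) * ((t + 3) * (t + 2)) := by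
      have : (t + 3) * ((2 * t + 7) * (t + 3) ^ 2) + (2 * t + 6) * (t + 3) ^ 2 +
        (a + 1) * ((t + 3) * (t + 2)) + 0 * (t + 2) ^ 2 =
        (t + 3) * ((2 * t + 7) * (t + 3) ^ 2) + (2 * t + 6) * (t + 3) ^ 2 +
        (b + 1) * ((t + 3) * (t + 2)) + 0 * (t + 2) ^ 2 := by exact_mod_cast hab
      omega
    have := Nat.eq_of_mul_eq_mul_right (by positivity) h0
    omega
  have hsub : ((Finset.image f (Finset.range (t + 2)) : Finset ℤ) : Set ℤ) ⊆
      pf (fam t r hr) := by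
    intro x hx
    simp only [Finset.coe_image, Finset.coe_range, Set.mem_image, Set.mem_Iio] at hx
    obtain ⟨j, hj, rfl⟩ := hx
    exact pf_mem hj
  have := Set.ncard_le_ncard hsub (pf_finite t r hr)
  rw [Set.ncard_coe_finset, Finset.card_image_of_injective _ hinj, Finset.card_range] at this
  exact this

/-- the parametrisation of the minimal generators -/
def par (t r : ℕ) : (Fin 2 × Fin 2 × Fin 2) ⊕ Fin r → ℕ
  | Sum.inl e => val t 1 (e.1 : ℕ) (e.2.1 : ℕ) (e.2.2 : ℕ)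
  | Sum.inr κ => val t (t + 3) (2 * t + 6) 0 (κ : ℕ)

lemma par_inj (t r : ℕ) (hr : r ≤ t + 3) : Function.Injective (par t r) := by
  have key : ∀ n i j k n' i' j' k' : ℕ, i < 2 * t + 7 → j < t + 3 → k < t + 3 →
      i' < 2 * t + 7 → j' < t + 3 → k' < t + 3 → val t n i j k = val t n' i' j' k' →
      n = n' ∧ i = i' ∧ j = j' ∧ k = k' := by
    intro n i j k n' i' j' k' hi hj hk hi' hj' hk' e
    have := nf_unique t (n := (n : ℤ)) (n' := (n' : ℤ)) hi hj hk hi' hj' hk'
      (by rw [← cast_val, ← cast_val, e])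
    exact ⟨by exact_mod_cast this.1, this.2⟩
  rintro (⟨a, b, d⟩ | κ) (⟨a', b', d'⟩ | κ') e
  · have := key _ _ _ _ _ _ _ _ (by omega) (by omega) (by omega) (by omega) (by omega)
      (by omega) e
    obtain ⟨-, h1, h2, h3⟩ := this
    simp only [Sum.inl.injEq, Prod.mk.injEq]
    exact ⟨Fin.ext h1, Fin.ext h2, Fin.ext h3⟩
  · exfalso
    have := key _ _ _ _ _ _ _ _ (by omega) (by omega) (by omega) (by omega) (by omega)
      (by omega) e
    omega
  · exfalso
    have := key _ _ _ _ _ _ _ _ (by omega) (by omega) (by omega) (by omega) (by omega)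
      (by omega) e
    omega
  · have := key _ _ _ _ _ _ _ _ (by omega) (by omega) (by omega) (by omega) (by omega)
      (by omega) e
    simp only [Sum.inr.injEq]
    exact Fin.ext this.2.2.2

lemma ge_c {t r : ℕ} {hr : r ≤ t + 3} {v : ℕ} (hv : v ∈ fam t r hr) (h0 : v ≠ 0) :
    (2 * t + 7) * (t + 3) ^ 2 ≤ v := by
  rcases hv with ⟨n, i, j, k, h1, h2, h3, rfl⟩ | ⟨κ, hκ, rfl⟩
  · exact val_ge h1 h2 h3 h0
  · have : 1 * ((2 * t + 7) * (t + 3) ^ 2) ≤ (t + 3) * ((2 * t + 7) * (t + 3) ^ 2) :=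
      Nat.mul_le_mul_right _ (by omega)
    unfold val
    omega

lemma minGens_fam (t r : ℕ) (hr : r ≤ t + 3) :
    minGens (fam t r hr) = Set.range (par t r) := by
  ext s
  constructor
  · rintro ⟨hs, h0, hirr⟩
    rcases hs with hs | ⟨κ, hκ, rfl⟩
    · obtain ⟨a, b, d, ha, hb, hd, s', hs', rfl⟩ := split hs h0
      have h1 := hirr _ (Or.inl (gen_mem ha hb hd)) _ (Or.inl hs') rfl
      have h2 : s' = 0 := by
        rcases h1 with h1 | h1
        · exfalso
          have := val_ge (t := t) ha hb hd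
          have hpos : 0 < val t 1 a b d := by unfold val; positivity
          omega
        · exact h1
      refine ⟨Sum.inl (⟨a, by omega⟩, ⟨b, by omega⟩, ⟨d, by omega⟩), ?_⟩
      simp [par, h2]
    · exact ⟨Sum.inr ⟨κ, hκ⟩, rfl⟩
  · rintro ⟨(⟨a, b, d⟩ | κ), rfl⟩
    · have ha : (a : ℕ) ≤ 1 := by omega
      have hb : (b : ℕ) ≤ 1 := by omega
      have hd : (d : ℕ) ≤ 1 := by omega
      refine ⟨Or.inl (gen_mem ha hb hd), ?_, ?_⟩
      · show val t 1 a b d ≠ 0
        unfold val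
        positivity
      · intro u hu v hv e
        by_contra hcon
        rw [not_or] at hcon
        have h1 := ge_c hu hcon.1
        have h2 := ge_c hv hcon.2
        have h3 : val t 1 a b d < 2 * ((2 * t + 7) * (t + 3) ^ 2) := by
          have ea : (a : ℕ) * (t + 3) ^ 2 ≤ 1 * (t + 3) ^ 2 := Nat.mul_le_mul_right _ ha
          have eb : (b : ℕ) * ((t + 3) * (t + 2)) ≤ 1 * ((t + 3) * (t + 2)) :=
            Nat.mul_le_mul_right _ hb
          have ed : (d : ℕ) * (t + 2) ^ 2 ≤ 1 * (t + 2) ^ 2 := Nat.mul_le_mul_right _ hd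
          unfold val
          nlinarith
        have e' : u + v = val t 1 a b d := e
        omega
    · refine ⟨Or.inr ⟨κ, κ.2, rfl⟩, ?_, ?_⟩
      · show val t (t + 3) (2 * t + 6) 0 κ ≠ 0
        unfold val
        positivity
      · intro u hu v hv e
        by_contra hcon
        rw [not_or] at hcon
        have h1 := ge_c hu hcon.1
        have h2 := ge_c hv hcon.2
        have e' : u + v = val t (t + 3) (2 * t + 6) 0 κ := e
        have hκ := κ.2
        have h3 : (κ : ℕ) * (t + 2) ^ 2 < (2 * t + 7) * (t + 3) ^ 2 := by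
          have : (κ : ℕ) * (t + 2) ^ 2 ≤ (t + 3) * (t + 2) ^ 2 :=
            Nat.mul_le_mul_right _ (by omega)
          nlinarith
        have h4 : val t (t + 3) (2 * t + 6) 0 κ =
            val t (t + 3) (2 * t + 6) 0 0 + (κ : ℕ) * (t + 2) ^ 2 := by
          unfold val; ring
        rcases hu with hu | ⟨κ', hκ', rfl⟩
        · rcases hv with hv | ⟨κ'', hκ'', rfl⟩
          · have hc := add_mem_cube hu hv
            rw [e'] at hc
            obtain ⟨m, hm, hP⟩ := P_of_mem t (n := ((t + 3 : ℕ) : ℤ)) (i := 2 * t + 6) (j := 0)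
              (k := κ) (by omega) (by omega) (by omega) (by rw [cast_val]) hc
            have : m = t + 3 := by exact_mod_cast hm.symm
            subst this
            unfold P at hP
            omega
          · have h5 : val t (t + 3) (2 * t + 6) 0 κ'' =
              val t (t + 3) (2 * t + 6) 0 0 + κ'' * (t + 2) ^ 2 := by unfold val; ring
            omega
        · have h5 : val t (t + 3) (2 * t + 6) 0 κ' =
              val t (t + 3) (2 * t + 6) 0 0 + κ' * (t + 2) ^ 2 := by unfold val; ring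
          omega

lemma embDim_fam (t r : ℕ) (hr : r ≤ t + 3) : embDim (fam t r hr) = 8 + r := by
  unfold embDim
  rw [minGens_fam, ← Set.image_univ, Set.ncard_image_of_injective _ (par_inj t r hr),
    Set.ncard_univ]
  simp

/-- For every embedding dimension `ν ≥ 8` there are nearly Gorenstein numerical semigroups, not
almost symmetric, of arbitrarily large type; so no function bounds the type of a nearly Gorenstein
numerical semigroup in terms of its embedding dimension. -/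
theorem result :
    (∀ ν : ℕ, 8 ≤ ν → ∀ N : ℕ, ∃ S : AddSubmonoid ℕ, IsNumSemigroup S ∧ IsNearlyGorenstein S ∧
      ¬ IsAlmostSymmetric S ∧ embDim S = ν ∧ N ≤ semType S) ∧
    ¬ ∃ φ : ℕ → ℕ, ∀ S : AddSubmonoid ℕ, IsNumSemigroup S → IsNearlyGorenstein S →
      semType S ≤ φ (embDim S) := by
  have main : ∀ ν : ℕ, 8 ≤ ν → ∀ N : ℕ, ∃ S : AddSubmonoid ℕ, IsNumSemigroup S ∧
      IsNearlyGorenstein S ∧ ¬ IsAlmostSymmetric S ∧ embDim S = ν ∧ N ≤ semType S := by
    intro ν hν N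
    have hr : ν - 8 ≤ (ν + N) + 3 := by omega
    refine ⟨fam (ν + N) (ν - 8) hr, fam_num _ _ _, fam_NG _ _ _, fam_not_AS _ _ _, ?_, ?_⟩
    · rw [embDim_fam]; omega
    · exact le_trans (by omega) (type_ge (ν + N) (ν - 8) hr)
  refine ⟨main, ?_⟩
  rintro ⟨φ, hφ⟩
  obtain ⟨S, h1, h2, -, h3, h4⟩ := main 8 le_rfl (φ 8 + 1)
  have := hφ S h1 h2
  rw [h3] at this
  omega

end Pool.Agent.Results.MP_9b7a67_al.NearlyGorensteinUnbounded
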