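import Pool.Agent.Results.MP_62a449_al.InfiniteFromEight

/-!
# The type of almost symmetric and of nearly Gorenstein numerical semigroups is not bounded by the
embedding dimension

For every `e ≥ 8` there are numerical semigroups of embedding dimension `e` and arbitrarily large
type which are almost symmetric and nearly Gorenstein. So both questions have the answer no.
The semigroups are those of the starting file `MP_62a449_al.InfiniteFromEight`; here they are
put in terms of the standard canonical ideal and shown to be nearly Gorenstein.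
-/

set_option autoImplicit false

namespace Pool.Agent.Results.MP_9b7a67_al.UnboundedType

/-- the integer `x` belongs to `S` -/
def Mem (S : AddSubmonoid ℕ) (x : ℤ) : Prop := ∃ n ∈ S, (n : ℤ) = x

/-- `S` is a numerical semigroup different from `ℕ`: a proper submonoid of `ℕ` with finite
complement -/
def IsNumericalSemigroup (S : AddSubmonoid ℕ) : Prop := ((S : Set ℕ)ᶜ).Finite ∧ S ≠ ⊤

/-- the minimal generators of `S` -/
def minGens (S : AddSubmonoid ℕ) : Set ℕ :=
  {g | g ∈ S ∧ g ≠ 0 ∧ ∀ a ∈ S, ∀ b ∈ S, a + b = g → a = 0 ∨ b = 0}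

/-- the embedding dimension `ν(S)` -/
noncomputable def nu (S : AddSubmonoid ℕ) : ℕ∞ := (minGens S).encard

/-- the Frobenius number `F(S)`: the largest integer that is not in `S` -/
noncomputable def frob (S : AddSubmonoid ℕ) : ℤ := sSup {x : ℤ | ¬ Mem S x}

/-- the pseudo-Frobenius numbers -/
def PF (S : AddSubmonoid ℕ) : Set ℤ :=
  {x | ¬ Mem S x ∧ ∀ m ∈ S, m ≠ 0 → Mem S (x + (m : ℤ))}

/-- the type `t(S)` -/
noncomputable def t (S : AddSubmonoid ℕ) : ℕ∞ := (PF S).encard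

/-- the standard canonical ideal `K = {x : F(S) - x ∉ S}` -/
def K (S : AddSubmonoid ℕ) : Set ℤ := {x | ¬ Mem S (frob S - x)}

/-- almost symmetric: `K + M ⊆ M` -/
def IsAlmostSymmetric (S : AddSubmonoid ℕ) : Prop :=
  ∀ x ∈ K S, ∀ m ∈ S, m ≠ 0 → Mem S (x + (m : ℤ)) ∧ x + (m : ℤ) ≠ 0

/-- nearly Gorenstein: `M ⊆ K + (S - K)` -/
def IsNearlyGorenstein (S : AddSubmonoid ℕ) : Prop :=
  ∀ m ∈ S, m ≠ 0 → ∃ x ∈ K S, ∃ z : ℤ, (∀ y ∈ K S, Mem S (z + y)) ∧ (m : ℤ) = x + z

/-- the Frobenius number is the greatest integer outside `S` -/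
theorem frob_spec {S : AddSubmonoid ℕ} (hS : IsNumericalSemigroup S) :
    IsGreatest {x : ℤ | ¬ Mem S x} (frob S) := by
  have hne : ({x : ℤ | ¬ Mem S x}).Nonempty := by
    refine ⟨-1, ?_⟩
    rintro ⟨n, _, hn⟩
    omega
  have hbd : BddAbove {x : ℤ | ¬ Mem S x} := by
    obtain ⟨B, hB⟩ := hS.1.bddAbove
    refine ⟨B, ?_⟩
    intro x hx
    by_contra hcon
    push Not at hcon
    lift x to ℕ using (by omega) with n
    by_cases hn : n ∈ S
    · exact hx ⟨n, hn, rfl⟩
    · have := hB (show n ∈ ((S : Set ℕ)ᶜ) from hn)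
      omega
  exact ⟨Int.csSup_mem hne hbd, fun x hx => le_csSup hbd hx⟩

theorem mem_of_gt {S : AddSubmonoid ℕ} (hS : IsNumericalSemigroup S) {x : ℤ} (hx : frob S < x) :
    Mem S x := by
  by_contra hcon
  exact absurd ((frob_spec hS).2 hcon) (not_le.2 hx)

/-- almost symmetric semigroups are nearly Gorenstein -/
theorem ng_of_as {S : AddSubmonoid ℕ} (hS : IsNumericalSemigroup S) (h : IsAlmostSymmetric S) :
    IsNearlyGorenstein S := by
  intro m hm hm0
  refine ⟨0, ?_, m, ?_, by ring⟩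
  · change ¬ Mem S (frob S - 0)
    rw [sub_zero]
    exact (frob_spec hS).1
  · intro y hy
    rw [add_comm]
    exact (h y hy m hm hm0).1

/-- from the definition by pseudo-Frobenius numbers to `K + M ⊆ M` -/
theorem as_of {S : AddSubmonoid ℕ} (hS : IsNumericalSemigroup S)
    (h : ∀ x : ℤ, ¬ Mem S x → Mem S (frob S - x) ∨ (x ∈ PF S ∧ frob S - x ∈ PF S)) :
    IsAlmostSymmetric S := by
  intro x hx m hm hm0
  by_cases hxS : Mem S x
  · obtain ⟨n, hn, rfl⟩ := hxS
    refine ⟨⟨n + m, S.add_mem hn hm, by push_cast; ring⟩, ?_⟩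
    omega
  · rcases h x hxS with h1 | h1
    · exact absurd h1 hx
    · refine ⟨h1.1.2 m hm hm0, ?_⟩
      intro h0
      apply hx
      apply mem_of_gt hS
      omega

theorem strong : ∀ e : ℕ, 8 ≤ e → ∀ N : ℕ, ∃ S : AddSubmonoid ℕ, IsNumericalSemigroup S ∧
    IsAlmostSymmetric S ∧ IsNearlyGorenstein S ∧ nu S = e ∧ (N : ℕ∞) < t S := by
  intro e he N
  have h := MP_62a449_al.InfiniteFromEight.result e he
  have h1 : (N : ℕ∞) < MP_62a449_al.InfiniteFromEight.supType e := by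
    rw [h]; exact ENat.natCast_lt_top N
  unfold MP_62a449_al.InfiniteFromEight.supType at h1
  obtain ⟨S, hS⟩ := lt_iSup_iff.1 h1
  obtain ⟨⟨hS1, hS2, hS3⟩, hS4⟩ := lt_iSup_iff.1 hS
  have hnum : IsNumericalSemigroup S := by
    refine ⟨hS1, ?_⟩
    rintro rfl
    have h2 : MP_62a449_al.InfiniteFromEight.minGens ⊤ ⊆ {1} := by
      rintro g ⟨_, hg0, hg⟩
      rcases hg 1 trivial (g - 1) trivial (by omega) with h3 | h3
      · omega
      · have : g = 1 := by omega
        simp [this]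
    have h3 : MP_62a449_al.InfiniteFromEight.edim ⊤ ≤ 1 :=
      (Set.encard_le_encard h2).trans (by simp)
    rw [hS3] at h3
    have : e ≤ 1 := by exact_mod_cast h3
    omega
  have has : IsAlmostSymmetric S := as_of hnum hS2
  exact ⟨S, hnum, has, ng_of_as hnum has, hS3, hS4⟩

/-- both questions have a negative answer, in every embedding dimension `e ≥ 8` -/
theorem result :
    (∀ e : ℕ, 8 ≤ e → ∀ N : ℕ, ∃ S : AddSubmonoid ℕ, IsNumericalSemigroup S ∧
      IsAlmostSymmetric S ∧ IsNearlyGorenstein S ∧ nu S = e ∧ (N : ℕ∞) < t S) ∧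
    (¬ ∃ φ : ℕ → ℕ, ∀ (S : AddSubmonoid ℕ) (e : ℕ), IsNumericalSemigroup S →
      IsAlmostSymmetric S → nu S = e → t S ≤ φ e) ∧
    (¬ ∃ φ : ℕ → ℕ, ∀ (S : AddSubmonoid ℕ) (e : ℕ), IsNumericalSemigroup S →
      IsNearlyGorenstein S → nu S = e → t S ≤ φ e) := by
  refine ⟨strong, ?_, ?_⟩
  · rintro ⟨φ, hφ⟩
    obtain ⟨S, h1, h2, h3, h4, h5⟩ := strong 8 le_rfl (φ 8)
    exact absurd (hφ S 8 h1 h2 h4) (not_le.2 h5)
  · rintro ⟨φ, hφ⟩
    obtain ⟨S, h1, h2, h3, h4, h5⟩ := strong 8 le_rfl (φ 8)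
    exact absurd (hφ S 8 h1 h3 h4) (not_le.2 h5)

end Pool.Agent.Results.MP_9b7a67_al.UnboundedType
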